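import Pool.Agent.Q181.Cube.Ham

/-! MP_6ffc1e_gt, Q1: for all `m, r ≥ 1` the clique complex of the Hamming-distance graph `G_m^r`
collapses to a subcomplex of its `(2^r - 1)`-skeleton.  (No complex of dimension larger than `k`
collapses onto the whole of its `k`-skeleton, so the statement has to be read as: a subcomplex
of it; the two further clauses record this.) -/

set_option autoImplicit false

namespace Pool.Agent.Results.MP_6ffc1e_gt.CollapseToLowSkeleton

open Q181.Cube

theorem result :
    (∀ m r : ℕ, 1 ≤ m → 1 ≤ r →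
      ∃ L : Set (Finset (Fin m)), IsComplex L ∧
        L ⊆ skeleton (2 ^ r - 1) (cliqueComplex (hamGraph m r)) ∧
        Collapses (cliqueComplex (hamGraph m r)) L) ∧
    (∀ m r : ℕ, 1 ≤ m → 1 ≤ r →
      (Collapses (cliqueComplex (hamGraph m r))
          (skeleton (2 ^ r - 1) (cliqueComplex (hamGraph m r))) ↔
        skeleton (2 ^ r - 1) (cliqueComplex (hamGraph m r)) = cliqueComplex (hamGraph m r))) ∧
    ¬ Collapses (cliqueComplex (hamGraph 16 2))
        (skeleton (2 ^ 2 - 1) (cliqueComplex (hamGraph 16 2))) := by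
  refine ⟨fun m r _ _ => exists_collapse_hamGraph m r,
    fun m r _ _ => collapses_skeleton_iff _ (cliqueComplex_isComplex _) _, ?_⟩
  rw [collapses_skeleton_iff _ (cliqueComplex_isComplex _) _]
  intro h
  have h1 : ({0, 1, 2, 4, 8} : Finset (Fin 16)) ∈ cliqueComplex (hamGraph 16 2) := by
    refine ⟨⟨0, by decide⟩, ?_⟩
    intro x hx y hy hxy
    refine ⟨hxy, ?_⟩
    rw [ham_eq]
    rw [Finset.mem_coe] at hx hy
    have key : ∀ x ∈ ({0, 1, 2, 4, 8} : Finset (Fin 16)), ∀ y ∈ ({0, 1, 2, 4, 8} : Finset (Fin 16)),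
        (symmDiff (bits (x : ℕ)) (bits (y : ℕ))).card ≤ 2 := by decide
    exact key x hx y hy
  rw [← h] at h1
  have h2 := h1.2
  revert h2
  decide

end Pool.Agent.Results.MP_6ffc1e_gt.CollapseToLowSkeleton
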